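import Pool.Agent.Q32.LR2.Stm

/-!
# Project LR2, job ALL: extension to the whole group
-/

set_option autoImplicit false

namespace Pool.Agent.Q18.LR2

open Q32.LR2

theorem t_ALL : S_ALL := by
  intro hS hD hC hCTB hZ G Q M Y _ _ _ _ _ F H _ _ e π s hFG hGH hstep W0 hW0 hF0 f hf
  obtain ⟨h1, h2, h3, h4, h5, h6, -, -, -, h10⟩ := hS G Y F H e
  have hclo0 : Clo F H e ∅ := by
    intro h hh g hg
    have hgF := h2 _ hg
    have h7 := (h1 ∅ ⟨g, hgF⟩).1 hg
    have h8 : FW (∅ : Set Y) = ⊥ := by simp [FW]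
    rw [h8, Subgroup.mem_bot] at h7
    have h9 : (⟨g, hgF⟩ : F) = 1 := by
      apply e.injective
      rw [h7, map_one]
    have h11 : g = 1 := congrArg Subtype.val h9
    rw [h11]
    simp
  have e0 : (∅ : Set Y) ∪ W0 = W0 := Set.empty_union W0
  obtain ⟨Z', f', hZZ, hcl, hok, hag⟩ := hCTB hS hD hC G Q M Y F H e π s hFG hstep ∅ W0 hclo0 hW0
    (by rw [e0]; exact hF0) f (by rw [e0]; exact hf)
  rw [e0] at hZZ hag
  have hFZ' : F ⊓ H ≤ BB F e Z' := hF0.trans (h4 _ _ hZZ).2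
  obtain ⟨f'', hok'', hag''⟩ := hZ hS hD G Q M Y F H e π s (by
    intro Z y hZc hFZ g hg
    have e1 : Z ∪ (∅ : Set Y) = Z := Set.union_empty Z
    obtain ⟨g1, hg1, hga⟩ := hstep Z ∅ {y} hZc (Set.finite_singleton y) (Set.empty_subset _)
      (by rw [e1]; exact hFZ) g (by rw [e1]; exact hg)
    rw [e1] at hga
    obtain ⟨Z2, g2, hz2, hc2, hok2, hag2⟩ := hCTB hS hD hC G Q M Y F H e π s hFG hstep Z {y} hZc
      (Set.finite_singleton y) (hFZ.trans (h4 _ _ Set.subset_union_left).2) g1 hg1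
    refine ⟨Z2, g2, Set.subset_union_left.trans hz2, hz2 (Or.inr rfl), hc2, hok2, ?_⟩
    intro x hx
    have hmono : LL F H e Z ≤ LL F H e (Z ∪ {y}) :=
      sup_le_sup_left (h4 _ _ Set.subset_union_left).1 H
    rw [hag2 x (hmono hx), hga x hx]) Z' f' hcl hFZ' hok
  have htop : ∀ g : G, g ∈ LL F H e Set.univ := by
    intro g
    obtain ⟨k, hk, h, hh, rfl⟩ := hGH g
    refine (h6 _ _).2 ⟨k, ?_, h, hh, rfl⟩
    rw [h10]
    exact hk
  refine ⟨MonoidHom.mk' f'' (fun a b => hok''.1 a (htop a) b (htop b)), ?_⟩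
  intro g hg
  have hmono : LL F H e W0 ≤ LL F H e Z' := sup_le_sup_left (h4 _ _ hZZ).1 H
  show f'' g = f g
  rw [hag'' g (hmono hg), hag g hg]

end Pool.Agent.Q18.LR2
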