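import Pool.Agent.Q32.LR2.Stm

/-!
# Project LR2, job DIR: directed unions
-/

set_option autoImplicit false

namespace Pool.Agent.Q18.LR2

open Q32.LR2

theorem fw_mono {Y : Type} {W W' : Set Y} (h : W ⊆ W') : FW W ≤ FW W' :=
  Subgroup.closure_mono (Set.image_mono h)

theorem fw_iUnion {Y I : Type} [Nonempty I] (W : I → Set Y)
    (hd : ∀ i j, ∃ k, W i ⊆ W k ∧ W j ⊆ W k) (u : FreeGroup Y) (hu : u ∈ FW (⋃ i, W i)) :
    ∃ i, u ∈ FW (W i) := by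
  unfold FW at hu
  rw [Set.image_iUnion, Subgroup.closure_iUnion] at hu
  rw [Subgroup.mem_iSup_of_directed] at hu
  · exact hu
  · intro i j
    obtain ⟨k, h1, h2⟩ := hd i j
    exact ⟨k, fw_mono h1, fw_mono h2⟩

theorem t_DIR : S_DIR := by
  intro hS G Y I _ F H _ _ e _ W hd hF
  obtain ⟨h1, h2, h3, h4, h5, h6, -, -, -, -⟩ := hS G Y F H e
  have hsub : ∀ i, W i ⊆ ⋃ i, W i := fun i => Set.subset_iUnion W i
  have hBB : ∀ g, g ∈ BB F e (⋃ i, W i) → ∃ i, g ∈ BB F e (W i) := by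
    intro g hg
    have hgF := h2 _ hg
    have h := (h1 _ ⟨g, hgF⟩).1 hg
    obtain ⟨i, hi⟩ := fw_iUnion W hd _ h
    exact ⟨i, (h1 _ ⟨g, hgF⟩).2 hi⟩
  have hA : ∀ g, g ∈ AA F H e (⋃ i, W i) ↔ ∃ i, g ∈ AA F H e (W i) := by
    intro g
    constructor
    · intro hg
      classical
      -- representatives
      have hq : ∀ q : G ⧸ F, ∃ (r : G) (i : I), (∃ h ∈ H, (h : G ⧸ F) = q) →
          r ∈ H ∧ (r : G ⧸ F) = q ∧ r⁻¹ * g * r ∈ BB F e (W i) := by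
        intro q
        by_cases h : ∃ h ∈ H, (h : G ⧸ F) = q
        · obtain ⟨r, hr, hrq⟩ := h
          obtain ⟨i, hi⟩ := hBB _ (hg r hr)
          exact ⟨r, i, fun _ => ⟨hr, hrq, hi⟩⟩
        · exact ⟨1, Classical.arbitrary I, fun h' => absurd h' h⟩
      choose r i hri using hq
      have hfin : Finite (G ⧸ F) := inferInstance
      have hdir : Directed (fun a b : Set Y => a ⊆ b) W := fun a b => hd a b
      haveI : IsTrans (Set Y) (fun a b : Set Y => a ⊆ b) := ⟨fun _ _ _ => Set.Subset.trans⟩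
      obtain ⟨k, hk⟩ := hdir.finite_le (g := i)
      refine ⟨k, ?_⟩
      intro h hh
      obtain ⟨hr, hrq, hb⟩ := hri (h : G ⧸ F) ⟨h, hh, rfl⟩
      set ρ := r (h : G ⧸ F) with hρ
      have h0F : ρ⁻¹ * h ∈ F := by
        rw [QuotientGroup.eq] at hrq
        exact hrq
      have h0H : ρ⁻¹ * h ∈ H := H.mul_mem (H.inv_mem hr) hh
      have h0B : ρ⁻¹ * h ∈ BB F e (W k) := hF k ⟨h0F, h0H⟩
      have hb' : ρ⁻¹ * g * ρ ∈ BB F e (W k) := (h4 _ _ (hk (h : G ⧸ F))).2 hb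
      have e1 : h⁻¹ * g * h = (ρ⁻¹ * h)⁻¹ * (ρ⁻¹ * g * ρ) * (ρ⁻¹ * h) := by group
      rw [e1]
      exact Subgroup.mul_mem _ (Subgroup.mul_mem _ (Subgroup.inv_mem _ h0B) hb') h0B
    · rintro ⟨i, hi⟩
      exact (h4 _ _ (hsub i)).1 hi
  refine ⟨hA, ?_⟩
  intro g
  constructor
  · intro hg
    obtain ⟨a, ha, h, hh, rfl⟩ := (h6 _ _).1 hg
    obtain ⟨i, hi⟩ := (hA a).1 ha
    exact ⟨i, (h6 _ _).2 ⟨a, hi, h, hh, rfl⟩⟩
  · rintro ⟨i, hi⟩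
    obtain ⟨a, ha, h, hh, rfl⟩ := (h6 _ _).1 hi
    exact (h6 _ _).2 ⟨a, (hA a).2 ⟨i, ha⟩, h, hh, rfl⟩

end Pool.Agent.Q18.LR2
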